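import Mathlib
import Pool.Agent.H560.SQ.StmC
import Pool.Agent.H560.SI.Wb

/-!
# SQ, task SQD: the sum over a class modulo `D` for a typical `b`, with a power saving (helper287),
after `SqW` by helper980 and `WbI` by helper903
-/

set_option autoImplicit false

namespace Pool.Agent.H287.SQ

open Polynomial
open scoped Classical
open Pool.Agent.H985.Chow (mob MD)
open Pool.Agent.H985.KP (PA Good2)
open Pool.Agent.H985.Chow.Asm
open Pool.Agent.H604.FC.Asm4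
open Pool.Agent.H233.Par
open Pool.Agent.H985.FC (GP)
open Pool.Agent.H604.FC (S_win4)
open Pool.Agent.H560.SI (split_gcd)
open Pool.Agent.H560.SQ (S_winI S_sqD)

theorem not_dvd_der' {K : Type} [Field K] [Fintype K] {c : K} {e h P : K[X]} (hc : c ≠ 0)
    (hcop : IsCoprime e h) (hsq : Squarefree h) (hP : Irreducible P) (hPh : P ∣ h) :
    ¬ P ∣ derivative (C c * (e * h)) := by
  obtain ⟨m, rfl⟩ := hPh
  have h1 : ¬ P ∣ e := by
    intro h1
    have h2 : IsCoprime P P := by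
      have := hcop.of_isCoprime_of_dvd_left h1
      exact this.of_isCoprime_of_dvd_right (dvd_mul_right _ _)
    exact hP.not_isUnit (isCoprime_self.1 h2)
  have h2 : ¬ P ∣ m := by
    rintro ⟨m', rfl⟩
    exact hP.not_isUnit (hsq P ⟨m', by ring⟩)
  have h3 : ¬ P ∣ derivative P := by
    intro h3
    have hs : P.Separable := PerfectField.separable_of_irreducible hP
    have h4 : IsCoprime P P := IsCoprime.of_isCoprime_of_dvd_right hs h3
    exact hP.not_isUnit (isCoprime_self.1 h4)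
  intro h
  have h5 : derivative (C c * (e * (P * m))) = P * (C c * (derivative e * m + e * derivative m)) +
      C c * (e * (derivative P * m)) := by
    simp only [derivative_mul, derivative_C]
    ring
  rw [h5] at h
  have h6 : P ∣ C c * (e * (derivative P * m)) := (dvd_add_right (dvd_mul_right _ _)).1 h
  have hp : Prime P := hP.prime
  rcases hp.dvd_or_dvd h6 with h7 | h7
  · have : IsUnit (C c : K[X]) := isUnit_C.2 (isUnit_iff_ne_zero.2 hc)
    exact hP.not_isUnit (isUnit_of_dvd_unit h7 this)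
  · rcases hp.dvd_or_dvd h7 with h8 | h8
    · exact h1 h8
    · rcases hp.dvd_or_dvd h8 with h9 | h9
      · exact h3 h9
      · exact h2 h9

theorem sqD (hw : S_winI) (h4 : S_win4) : S_sqD := by
  intro K _ _ _ δ E₀ hδ
  obtain ⟨q, hqdef⟩ : ∃ q : ℝ, q = Fintype.card K := ⟨_, rfl⟩
  have hq1 : (1 : ℝ) < q := by rw [hqdef]; exact_mod_cast Fintype.one_lt_card
  have hq0 : (0 : ℝ) < q := by linarith
  obtain ⟨M, hM1, hM⟩ := h4 1 1
  obtain ⟨κ₂, hκ₂⟩ : ∃ κ₂ : ℝ, κ₂ = δ / 36 := ⟨_, rfl⟩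
  have hκ₂0 : 0 < κ₂ := by rw [hκ₂]; positivity
  obtain ⟨A, hA1, hA⟩ := omega_bound K M hM1 (q ^ (κ₂ / 2)) (Real.one_lt_rpow hq1 (by positivity))
  obtain ⟨m1, hm1⟩ := tend (A ^ 1 * q) (q ^ (-(κ₂ / 4))) 1 (by positivity)
    (Real.rpow_lt_one_of_one_lt_of_neg hq1 (by linarith)) one_pos
  obtain ⟨c, hc⟩ : ∃ c : ℝ, c = κ₂ / (4 * 2 ^ (6 * 1 + 1)) := ⟨_, rfl⟩
  have hc0 : 0 < c := by rw [hc]; positivity
  obtain ⟨m2, hm2⟩ := exists_nat_gt ((40 * E₀ + 40) / δ)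
  refine ⟨min (δ / 40) (1 / 40), c, by positivity, hc0, m1 + m2 + 40 * (E₀ + 1), ?_⟩
  intro β hβ d L' γ b Z D hβd hγ hb hgood hZ hZd hD hDd hDL
  have hκδ : (D.natDegree : ℝ) ≤ δ / 40 * β :=
    hDd.trans (mul_le_mul_of_nonneg_right (min_le_left _ _) (Nat.cast_nonneg _))
  have hκ1 : (D.natDegree : ℝ) ≤ 1 / 40 * β :=
    hDd.trans (mul_le_mul_of_nonneg_right (min_le_right _ _) (Nat.cast_nonneg _))
  have hD40 : 40 * D.natDegree ≤ β := by
    have h1 : 40 * (D.natDegree : ℝ) ≤ β := by linarith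
    exact_mod_cast h1
  obtain ⟨e, h₁, h₂, hbe, he, hh₁, hh₂, heh, hsq, -, hE₀, hδ1, hδ2⟩ := hgood
  have hdeh : (e * (h₁ * h₂)).natDegree = β := by rw [← hbe]; exact hb.2
  have hdd : e.natDegree + (h₁.natDegree + h₂.natDegree) = β := by
    rw [← hdeh, he.natDegree_mul (hh₁.mul hh₂), hh₁.natDegree_mul hh₂]
  have hsq1 : Squarefree h₁ := hsq.squarefree_of_dvd (dvd_mul_right _ _)
  have hsq2 : Squarefree h₂ := hsq.squarefree_of_dvd (dvd_mul_left _ _)
  have hcop12 : IsCoprime h₁ h₂ := by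
    rw [squarefree_mul_iff] at hsq
    exact hsq.1.isCoprime
  -- the splitting
  obtain ⟨g₁, k₁, hs1, hg₁, hk₁, hgk1, hg1D, hk1D⟩ := split_gcd (D := D) hh₁ hsq1
  obtain ⟨g₂, k₂, hs2, hg₂, hk₂, hgk2, hg2D, hk2D⟩ := split_gcd (D := D) hh₂ hsq2
  have hgg : IsCoprime g₁ g₂ :=
    (hcop12.of_isCoprime_of_dvd_left (by rw [hs1]; exact dvd_mul_right _ _)).of_isCoprime_of_dvd_right
      (by rw [hs2]; exact dvd_mul_right _ _)
  have hggD : g₁ * g₂ ∣ D := hgg.mul_dvd hg1D hg2D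
  have hkk : k₁ * k₂ ∣ h₁ * h₂ := by
    rw [hs1, hs2]
    exact mul_dvd_mul (dvd_mul_left _ _) (dvd_mul_left _ _)
  have hg1d : g₁.natDegree ≤ D.natDegree := natDegree_le_of_dvd hg1D hD.ne_zero
  have hg2d : g₂.natDegree ≤ D.natDegree := natDegree_le_of_dvd hg2D hD.ne_zero
  have hd1 : g₁.natDegree + k₁.natDegree = h₁.natDegree := by
    rw [hs1, hg₁.natDegree_mul hk₁]
  have hd2 : g₂.natDegree + k₂.natDegree = h₂.natDegree := by
    rw [hs2, hg₂.natDegree_mul hk₂]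
  obtain ⟨e', he'⟩ : ∃ e', e' = e * (g₁ * g₂) := ⟨_, rfl⟩
  have he'm : e'.Monic := by rw [he']; exact he.mul (hg₁.mul hg₂)
  have hkkm : (k₁ * k₂).Monic := hk₁.mul hk₂
  have hbk : b = e' * (k₁ * k₂) := by
    rw [hbe, he', hs1, hs2]
    ring
  have hsqk : Squarefree (k₁ * k₂) := hsq.squarefree_of_dvd hkk
  have hb' : (e' * (k₁ * k₂)).natDegree = β := by rw [← hbk]; exact hb.2
  have hPk : ∀ P : K[X], Irreducible P → P ∣ k₁ * k₂ → ¬ P ∣ D ∧ ¬ P ∣ e := by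
    intro P hP hPk
    refine ⟨?_, ?_⟩
    · rcases hP.prime.dvd_or_dvd hPk with h | h
      · exact hk1D P hP h
      · exact hk2D P hP h
    · intro h
      have h5 : IsCoprime P P :=
        (heh.of_isCoprime_of_dvd_left h).of_isCoprime_of_dvd_right (hPk.trans hkk)
      exact hP.not_isUnit (isCoprime_self.1 h5)
  have hek : IsCoprime e' (k₁ * k₂) := by
    apply cop_of (fun h => he'm.ne_zero h.1)
    intro P _ hPi hPe hPk'
    obtain ⟨h5, h6⟩ := hPk P hPi hPk'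
    rw [he'] at hPe
    rcases hPi.prime.dvd_or_dvd hPe with h | h
    · exact h6 h
    · exact h5 (h.trans hggD)
  -- degrees
  have hβ0 : (0 : ℝ) ≤ β := Nat.cast_nonneg β
  have hE₀0 : (0 : ℝ) ≤ E₀ := Nat.cast_nonneg _
  have hE₀' : (e.natDegree : ℝ) ≤ E₀ := by exact_mod_cast hE₀
  have hm2' : 40 * (E₀ : ℝ) + 40 ≤ δ * β := by
    have h1 : (m2 : ℝ) ≤ β := by exact_mod_cast (by omega : m2 ≤ β)
    have h2 : (40 * (E₀ : ℝ) + 40) / δ ≤ β := hm2.le.trans h1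
    rw [div_le_iff₀ hδ] at h2
    linarith
  obtain ⟨L2, hL2⟩ : ∃ L2, L2 = L' - 4 * D.natDegree - 5 * e.natDegree := ⟨_, rfl⟩
  have hL2L : L2 + 5 * D.natDegree + 5 * e.natDegree = β + 1 := by omega
  have hL2r : (L2 : ℝ) + 5 * D.natDegree + 5 * e.natDegree = β + 1 := by exact_mod_cast hL2L
  have hdd' : (e.natDegree : ℝ) + (h₁.natDegree + h₂.natDegree) = β := by exact_mod_cast hdd
  have hd1' : (g₁.natDegree : ℝ) + k₁.natDegree = h₁.natDegree := by exact_mod_cast hd1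
  have hd2' : (g₂.natDegree : ℝ) + k₂.natDegree = h₂.natDegree := by exact_mod_cast hd2
  have hg1d' : (g₁.natDegree : ℝ) ≤ D.natDegree := by exact_mod_cast hg1d
  have hg2d' : (g₂.natDegree : ℝ) ≤ D.natDegree := by exact_mod_cast hg2d
  have hg10 : (0 : ℝ) ≤ g₁.natDegree := Nat.cast_nonneg _
  have hg20 : (0 : ℝ) ≤ g₂.natDegree := Nat.cast_nonneg _
  have he0 : (0 : ℝ) ≤ e.natDegree := Nat.cast_nonneg _
  obtain ⟨D4, hD4⟩ : ∃ D4, D4 = ⌊δ * β / 4⌋₊ := ⟨_, rfl⟩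
  obtain ⟨T, hT⟩ : ∃ T, T = D4 / (6 * 1 + 3) := ⟨_, rfl⟩
  have hD41 : (D4 : ℝ) ≤ δ * β / 4 := by
    rw [hD4]
    exact Nat.floor_le (by positivity)
  have hD42 : δ * β / 4 < D4 + 1 := by
    rw [hD4]
    exact Nat.lt_floor_add_one (δ * β / 4)
  have hT1 : (6 * 1 + 3) * T ≤ D4 := by
    rw [hT]
    exact Nat.mul_div_le _ _
  have hT2 : D4 + 1 ≤ (6 * 1 + 3) * (T + 1) := by
    rw [hT]
    exact Nat.lt_mul_div_succ D4 (by omega)
  have hT3 : κ₂ * β ≤ T + 1 := by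
    have h1 : (D4 : ℝ) + 1 ≤ (6 * 1 + 3) * (T + 1) := by exact_mod_cast hT2
    have h2 : δ * β / 4 ≤ (6 * 1 + 3) * (T + 1) := by linarith
    rw [hκ₂]
    linarith
  have hk1L : k₁.natDegree + D4 ≤ L2 := by
    have h1 : (k₁.natDegree : ℝ) + D4 ≤ L2 := by nlinarith
    exact_mod_cast h1
  have hk2L : k₂.natDegree + D4 ≤ L2 := by
    have h1 : (k₂.natDegree : ℝ) + D4 ≤ L2 := by nlinarith
    exact_mod_cast h1
  have hk2L' : L2 ≤ 2 * k₂.natDegree := by
    have h1 : (L2 : ℝ) ≤ 2 * k₂.natDegree := by nlinarith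
    exact_mod_cast h1
  have hL21 : 1 ≤ L2 := by omega
  -- the average over the windows
  rw [window_finsum]
  have hmem : ∀ w ∈ degreeLT K L2, (D ^ 4 * e ^ 5) * w ∈ degreeLT K L' := by
    intro w hw
    apply mem_of_natDegree_lt
    by_cases hw0 : w = 0
    · left
      rw [hw0, mul_zero]
    · right
      have h1 := natDegree_lt_of_mem hw hw0
      rw [((hD.pow 4).mul (he.pow 5)).natDegree_mul' hw0, (hD.pow 4).natDegree_mul (he.pow 5),
        hD.natDegree_pow, he.natDegree_pow]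
      omega
  have havg := avg L' L2 (D ^ 4 * e ^ 5) hmem
    (fun v => (mob ((Z + D * v) ^ 2 + X * (C γ * b) ^ 2) : ℝ)) (q ^ (-(c * β))) ?_
  · refine havg.trans ?_
    rw [← hqdef, ← Real.rpow_natCast, ← Real.rpow_add hq0]
    apply Real.rpow_le_rpow_of_exponent_le hq1.le
    have h1 : (L' : ℝ) ≤ β + 1 := by exact_mod_cast (by omega : L' ≤ β + 1)
    linarith
  intro v hv
  obtain ⟨Z', hZ'⟩ : ∃ Z', Z' = Z + D * v := ⟨_, rfl⟩
  obtain ⟨E, hE⟩ : ∃ E, E = (D * e) ^ 5 := ⟨_, rfl⟩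
  have hE0 : E ≠ 0 := by
    rw [hE]
    exact pow_ne_zero _ (mul_ne_zero hD.ne_zero he.ne_zero)
  have hEd : E.natDegree = 5 * D.natDegree + 5 * e.natDegree := by
    rw [hE, (hD.mul he).natDegree_pow, hD.natDegree_mul he]
    ring
  have key : ∀ w : K[X], (Z' + E * w) ^ 2 + X * (C γ * (e' * (k₁ * k₂))) ^ 2 =
      (Z + D * (v + D ^ 4 * e ^ 5 * w)) ^ 2 + X * (C γ * b) ^ 2 := by
    intro w
    rw [← hbk, hZ', hE]
    ring
  have hmon : Z'.Monic ∧ Z'.natDegree = d := by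
    have h2 : (D * v).degree < Z.degree := by
      by_cases hv0 : v = 0
      · rw [hv0, mul_zero, degree_zero]
        exact bot_lt_iff_ne_bot.2 (degree_ne_bot.2 hZ.ne_zero)
      · apply degree_lt_degree
        have h3 := natDegree_lt_of_mem hv hv0
        rw [hD.natDegree_mul' hv0, hZd]
        omega
    refine ⟨?_, ?_⟩
    · rw [hZ']
      exact hZ.add_of_left h2
    · rw [hZ', natDegree_add_eq_left_of_degree_lt h2, hZd]
  have hEh : IsCoprime E (k₁ * k₂) := by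
    apply cop_of (fun h1 => hE0 h1.1)
    intro P hPm hPi hPE hPh
    rw [hE] at hPE
    obtain ⟨h5, h6⟩ := hPk P hPi hPh
    rcases hPi.prime.dvd_or_dvd (hPi.prime.dvd_of_dvd_pow hPE) with h | h
    · exact h5 h
    · exact h6 h
  obtain ⟨η, χ, hη, -, hηw⟩ := hw K d L2 γ Z' e' (k₁ * k₂) E hγ he'm hkkm hek hsqk hE0
    (by
      rw [hE, he', mul_comm D e]
      exact pow_dvd_pow_of_dvd (mul_dvd_mul_left e hggD) 5) hEh hL21
    hmon.1 hmon.2 (by rw [hb']; exact hβd) (by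
      rw [hb', hEd]
      omega)
  have hwm := hM K L2 D4 T E (fun _ => C γ * (e' * (k₁ * k₂))) (fun _ => k₁) (fun _ => k₂)
    (fun _ => Z') (fun _ => 1) (fun _ => 0) 0 χ
    (fun _ => ⟨hk₁, hk₂, hsqk, hEh, hk1L, hk2L,
      fun P hP => not_dvd_der' hγ hek hsqk hP.2.1 hP.2.2⟩)
    (fun i j hij => absurd (Subsingleton.elim i j) hij) ⟨0, rfl⟩
    (fun i j hij _ => absurd (Subsingleton.elim i j) hij) hk2L' hT1
  rw [window_finsum, ← hqdef] at hwm
  simp only [Finset.univ_unique, Finset.prod_singleton, Finset.sum_singleton] at hwm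
  have hMw : M ^ (PA (k₁ * k₂)).ncard ≤ A ^ 1 * (q ^ (κ₂ / 2)) ^ β := by
    rw [pow_one]
    refine hA (k₁ * k₂) hkkm.ne_zero β ?_
    rw [hk₁.natDegree_mul hk₂]
    omega
  have hfin := fin_num (k := 1) (r := 1) (n := β) (L := L2) (T := T) hq1 le_rfl hκ₂0 hA1
    (abs_nonneg _) hT3 hMw (hm1 β (by omega)) hc hwm
  have hterm : ∀ w : degreeLT K L2,
      (mob ((Z + D * (v + D ^ 4 * e ^ 5 * (w : K[X]))) ^ 2 + X * (C γ * b) ^ 2) : ℝ) =
        η * (χ (w : K[X]) *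
          ∏ᶠ P ∈ PA (k₁ * k₂), GP (C γ * (e' * (k₁ * k₂))) 1 P (Z' + E * (w : K[X]))) := by
    intro w
    rw [← key]
    exact hηw w (mem_degreeLT.1 w.2)
  rw [Finset.sum_congr rfl (fun w _ => hterm w), ← Finset.mul_sum, abs_mul]
  refine (mul_le_of_le_one_left (abs_nonneg _) hη).trans ?_
  refine hfin.trans (le_of_eq ?_)
  rw [sub_eq_add_neg, Real.rpow_add hq0, Real.rpow_natCast, ← hqdef]

end Pool.Agent.H287.SQ
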